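import Pool.Agent.helper53.SP4.Spec

/-!
# Project SP4 (MP_561ff4_al), row S4U: change of the basis of a plane
-/

set_option autoImplicit false

namespace Pool.Agent.SP4

open Pool.Agent.GS

theorem S4U_lin {F : Type} [Field F] (a b w : Fin 4 → F) (α β : F) :
    B (α • a + β • b) w = α * B a w + β * B b w := by
  unfold B
  simp only [Pi.add_apply, Pi.smul_apply, smul_eq_mul]
  ring

theorem S4U_smul {F : Type} [Field F] (a w : Fin 4 → F) (α : F) : B (α • a) w = α * B a w := by
  unfold B
  simp only [Pi.smul_apply, smul_eq_mul]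
  ring

theorem S4U_smulr {F : Type} [Field F] (a w : Fin 4 → F) (α : F) : B w (α • a) = α * B w a := by
  unfold B
  simp only [Pi.smul_apply, smul_eq_mul]
  ring

theorem S4U (hS4B : S4B_stmt) : S4U_stmt := by
  intro F _ _ a b v hP hv hv0
  obtain ⟨hvv, hsym, -⟩ := hS4B F
  obtain ⟨hind, hab⟩ := hP
  rw [LinearIndependent.pair_iff] at hind
  obtain ⟨α, β, rfl⟩ := Submodule.mem_span_pair.1 hv
  by_cases hα : α = 0
  · have hβ : β ≠ 0 := by
      intro h
      apply hv0
      rw [hα, h, zero_smul, zero_smul, add_zero]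
    refine ⟨β⁻¹ • a, ⟨?_, ?_⟩, ?_, ?_⟩
    · rw [LinearIndependent.pair_iff]
      intro s t h
      have h1 : (t * β⁻¹) • a + (s * β) • b = 0 := by
        rw [← h, hα, zero_smul, zero_add, smul_smul, smul_smul, add_comm]
      obtain ⟨h2, h3⟩ := hind _ _ h1
      exact ⟨(mul_eq_zero.1 h3).resolve_right hβ, (mul_eq_zero.1 h2).resolve_right (inv_ne_zero hβ)⟩
    · rw [S4U_lin, hα, zero_mul, zero_add, S4U_smulr, hsym b a, hab, mul_zero, mul_zero]
    · refine le_antisymm (Submodule.span_le.2 ?_) (Submodule.span_le.2 ?_)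
      · rintro y (rfl | rfl)
        · exact hv
        · exact Submodule.mem_span_pair.2 ⟨β⁻¹, 0, by rw [zero_smul, add_zero]⟩
      · rintro y (rfl | rfl)
        · exact Submodule.mem_span_pair.2 ⟨0, β, by rw [zero_smul, zero_add, smul_smul, mul_inv_cancel₀ hβ, one_smul]⟩
        · exact Submodule.mem_span_pair.2 ⟨β⁻¹, 0, by
            rw [zero_smul, add_zero, hα, zero_smul, zero_add, smul_smul, inv_mul_cancel₀ hβ, one_smul]⟩
    · intro t
      unfold IsA
      refine forall_congr' fun w => ?_
      have h1 : B b w • a + B a w • b = B (β⁻¹ • a) w • (α • a + β • b) + B (α • a + β • b) w • (β⁻¹ • a) := by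
        rw [S4U_smul, S4U_lin, hα, zero_smul, zero_add, zero_mul, zero_add, smul_smul, smul_smul]
        have e1 : β⁻¹ * B a w * β = B a w := by
          field_simp
        have e2 : β * B b w * β⁻¹ = B b w := by
          field_simp
        rw [e1, e2, add_comm]
      rw [h1]
  · refine ⟨α⁻¹ • b, ⟨?_, ?_⟩, ?_, ?_⟩
    · rw [LinearIndependent.pair_iff]
      intro s t h
      have h1 : (s * α) • a + (s * β + t * α⁻¹) • b = 0 := by
        rw [← h, smul_add, smul_smul, smul_smul, smul_smul, add_smul, add_assoc]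
      obtain ⟨h2, h3⟩ := hind _ _ h1
      have h4 : s = 0 := (mul_eq_zero.1 h2).resolve_right hα
      rw [h4, zero_mul, zero_add] at h3
      exact ⟨h4, (mul_eq_zero.1 h3).resolve_right (inv_ne_zero hα)⟩
    · rw [S4U_lin, S4U_smulr, S4U_smulr, hab, hvv b, mul_zero, mul_zero, mul_zero, add_zero]
    · refine le_antisymm (Submodule.span_le.2 ?_) (Submodule.span_le.2 ?_)
      · rintro y (rfl | rfl)
        · exact hv
        · exact Submodule.mem_span_pair.2 ⟨0, α⁻¹, by rw [zero_smul, zero_add]⟩
      · rintro y (rfl | rfl)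
        · refine Submodule.mem_span_pair.2 ⟨α⁻¹, -β, ?_⟩
          rw [smul_add, smul_smul, smul_smul, smul_smul, inv_mul_cancel₀ hα, one_smul, add_assoc, ← add_smul]
          have e1 : α⁻¹ * β + -β * α⁻¹ = 0 := by ring
          rw [e1, zero_smul, add_zero]
        · exact Submodule.mem_span_pair.2 ⟨0, α, by rw [zero_smul, zero_add, smul_smul, mul_inv_cancel₀ hα, one_smul]⟩
    · intro t
      unfold IsA
      refine forall_congr' fun w => ?_
      have h1 : B b w • a + B a w • b = B (α⁻¹ • b) w • (α • a + β • b) + B (α • a + β • b) w • (α⁻¹ • b) := by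
        rw [S4U_smul, S4U_lin, smul_add, smul_smul, smul_smul, smul_smul]
        have e1 : α⁻¹ * B b w * α = B b w := by
          field_simp
        have e2 : (α * B a w + β * B b w) * α⁻¹ = B a w + α⁻¹ * B b w * β := by
          field_simp
        rw [e1, e2, add_smul, add_assoc, add_comm (B a w • b), ← add_assoc ((α⁻¹ * B b w * β) • b), ← add_smul,
          CharTwo.add_self_eq_zero, zero_smul, zero_add]
      rw [h1]

end Pool.Agent.SP4
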